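import Pool.Agent.helper22.GS.Spec

/-! M2 of project gs. -/

set_option autoImplicit false

namespace Pool.Agent.GS

open Module

noncomputable section

theorem M2_fix {F V : Type} [Field F] [AddCommGroup V] [Module F V]
    {B : LinearMap.BilinForm F V} (hB : Alt B) (p q : V) (a b : F) (x : V) (h1 : B x p = 0)
    (h2 : B x q = 0) : (tv B p a * tv B q b) x = x := by
  rw [Equiv.Perm.mul_apply, tv_apply hB, tv_apply hB, h2, mul_zero, zero_smul, add_zero, h1,
    mul_zero, zero_smul, add_zero]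

theorem M2 (hH1 : H1_stmt) (hN2 : N2_stmt) : M2_stmt := by
  intro F V _ _ _ _ B hB y ψ ν hy hP r hr hr2 hD
  obtain ⟨v, w, hvw, hyv, hyw, hyvw, hvyw⟩ := hP
  obtain ⟨σ, hσ, -⟩ := hH1 r hr hr2 hD 1 one_ne_zero
  obtain ⟨β, hβ⟩ : ∃ β, B v w = β := ⟨_, rfl⟩
  have hβ0 : β ≠ 0 := by rw [← hβ]; exact hvw
  have hwv : B w v = -β := by rw [hB.neg, hβ]
  obtain ⟨b, hb⟩ : ∃ b : F, b = -σ / β ^ 2 := ⟨_, rfl⟩
  have hbβ : b * β * β = -σ := by
    rw [hb]
    field_simp
  have ht : tv B v 1 * tv B w b ∈ SpG B := (SpG B).mul_mem (tv_mem hB v 1) (tv_mem hB w b)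
  have htinv : (tv B v 1 * tv B w b)⁻¹ = tv B w (-b) * tv B v (-1) := by
    rw [mul_inv_rev, tv_inv hB, tv_inv hB]
  have hconj : y * (tv B v 1 * tv B w b) * y⁻¹ =
      tv B (y v) (ν⁻¹ * ψ 1) * tv B (y w) (ν⁻¹ * ψ b) := by
    rw [← tv_conj hB hy, ← tv_conj hB hy]
    group
  have h1 : B v (y v) = 0 := by rw [hB.neg, hyv, neg_zero]
  have h2 : B w (y v) = 0 := by rw [hB.neg, hyvw, neg_zero]
  have h3 : B w (y w) = 0 := by rw [hB.neg, hyw, neg_zero]
  have hfix : ∀ s t : F, (y * (tv B v 1 * tv B w b) * y⁻¹) (s • v + t • w) = s • v + t • w := by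
    intro s t
    rw [hconj]
    refine M2_fix hB _ _ _ _ _ ?_ ?_
    · simp only [map_add, LinearMap.add_apply, map_smul, LinearMap.smul_apply, h1, h2, smul_zero,
        add_zero]
    · simp only [map_add, LinearMap.add_apply, map_smul, LinearMap.smul_apply, hvyw, h3, smul_zero,
        add_zero]
  have hv' : (tv B v 1 * tv B w b)⁻¹ v = (1 : F) • v + (-(b * β)) • w := by
    rw [htinv, Equiv.Perm.mul_apply, tv_apply hB v, hB.alt, mul_zero, zero_smul, add_zero,
      tv_apply hB w, hβ, one_smul, neg_mul]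
  have hw' : (tv B v 1 * tv B w b)⁻¹ w = β • v + (1 + σ) • w := by
    rw [htinv, Equiv.Perm.mul_apply, tv_apply hB v, hwv, tv_apply hB w]
    simp only [map_add, LinearMap.add_apply, map_smul, LinearMap.smul_apply, smul_eq_mul, hB.alt,
      hβ]
    have e1 : (-1 : F) * -β = β := by ring
    rw [e1, zero_add]
    have e2 : -b * (β * β) = σ := by
      have : -b * (β * β) = -(b * β * β) := by ring
      rw [this, hbβ, neg_neg]
    rw [e2, add_smul, one_smul]
    abel
  have hzv : (y * (tv B v 1 * tv B w b) * y⁻¹ * (tv B v 1 * tv B w b)⁻¹) v =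
      (1 : F) • v + (-(b * β)) • w := by
    rw [Equiv.Perm.mul_apply, hv', hfix]
  have hzw : (y * (tv B v 1 * tv B w b) * y⁻¹ * (tv B v 1 * tv B w b)⁻¹) w =
      β • v + (1 + σ) • w := by
    rw [Equiv.Perm.mul_apply, hw', hfix]
  have hz : y * (tv B v 1 * tv B w b) * y⁻¹ * (tv B v 1 * tv B w b)⁻¹ ∈ SpG B :=
    (SpG B).mul_mem (hy.conj_mem ht) ((SpG B).inv_mem ht)
  refine ⟨_, hz, Gen.comm ht, ?_⟩
  have hLI : LinearIndependent F ![v, w] := by
    rw [LinearIndependent.pair_iff]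
    intro s t hst
    have e1 : s * β = 0 := by
      have := congrArg (fun x => B x w) hst
      simpa [hβ, hB.alt] using this
    have e2 : t * β = 0 := by
      have := congrArg (fun x => B v x) hst
      simpa [hβ, hB.alt] using this
    exact ⟨(mul_eq_zero.1 e1).resolve_right hβ0, (mul_eq_zero.1 e2).resolve_right hβ0⟩
  refine hN2 r 1 σ hσ _ hz.1 v w hLI !![1, β; -(b * β), 1 + σ] ?_ ?_ ?_ ?_
  · rw [Matrix.det_fin_two_of]
    have : β * -(b * β) = σ := by
      have e : β * -(b * β) = -(b * β * β) := by ring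
      rw [e, hbβ, neg_neg]
    rw [this]
    ring
  · rw [Matrix.trace_fin_two_of]
    ring
  · rw [hzv]
    simp
  · rw [hzw]
    simp

end

end Pool.Agent.GS
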